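import Pool.Agent.Q331.AST.Galois

/-!
# There are infinitely many connected sporadic 3-astral 4-configurations

For every odd `l` that is not a multiple of `7`, the symbol `m#(1, 10 l; 6 l, 1; 12 l, 10 l)` with `m = 30 l` is the
symbol of a connected 3-astral 4-configuration. Its cohort `m#{{1, m/5, 2m/5}, {1, m/3, m/3}}` is neither trivial nor
in one of the families 1-4, so Q1 has a negative answer.

The cosine identity is `cos (π / 5) cos (2 π / 5) = cos (π / 3) ^ 2`, multiplied by `cos (π / m)`. The orbits of points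
have the radii `1`, `2 cos (π / m)` and `2 cos (π / 5)`. That there are no unintended incidences means that
`2 cos (π / 5) cos (h π / m) ≠ cos (π / m)`, `cos (h π / m) ≠ 2 cos (π / 5) cos (π / m)` and
`4 cos (π / m) cos (h π / m) ≠ 1` for all integers `h`. The second is clear, the first and the third follow from the
conjugate relations, in which `π / m` is replaced by `7 π / m` and by `(15 l + 2) π / m = π / 2 + 2 π / m`. The
configuration is connected as the sides of the first polygon (span `1`) are among the lines.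
-/

set_option autoImplicit false

namespace Pool.Agent.Results.MP_abecca_co.InfinitelyManySporadic

open Complex

/-- `ℓ` is a line of the Euclidean plane `ℂ`. -/
def IsLine (ℓ : Set ℂ) : Prop := ∃ a v : ℂ, v ≠ 0 ∧ ℓ = {z | ∃ t : ℝ, z = a + t * v}

/-- `ω = exp (2 π i / m)`. -/
noncomputable def ω (m : ℕ) : ℂ := exp (2 * Real.pi * I / m)

/-- The set of the vertices of the regular `m`-gon with centre `0` that has the vertex `z`. -/
def vertices (m : ℕ) (z : ℂ) : Set ℂ := {w | ∃ k : ℕ, w = z * ω m ^ k}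

/-- The dihedral group with centre `0` of the rotations `z ↦ ω ^ k z` and the reflections `z ↦ u ω ^ k z̄` (the number
`u` of absolute value `1` determines the axes). -/
def dihedral (m : ℕ) (u : ℂ) : Set (ℂ → ℂ) :=
  {f | ∃ k : ℕ, (∀ z, f z = ω m ^ k * z) ∨ ∀ z, f z = u * ω m ^ k * (starRingEnd ℂ) z}

/-- `P 0, P 1, P 2` are the orbits of points and `L 0, L 1, L 2` are the orbits of lines of a 3-astral
4-configuration with the symbol `m#(s 0, t 0; s 1, t 1; s 2, t 2)`. Indices are modulo `3`. -/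
structure IsThreeAstral (m : ℕ) (s t : Fin 3 → ℕ) (P : Fin 3 → Set ℂ) (L : Fin 3 → Set (Set ℂ)) : Prop where
  three_le : 3 ≤ m
  /-- the spans are at least `1` and less than `m / 2` -/
  spans : ∀ j, 1 ≤ s j ∧ 2 * s j < m ∧ 1 ≤ t j ∧ 2 * t j < m
  /-- every orbit of points is the set of the vertices of a regular `m`-gon with centre `0` -/
  polygons : ∀ j, ∃ z : ℂ, z ≠ 0 ∧ P j = vertices m z
  lines : ∀ j, ∀ ℓ ∈ L j, IsLine ℓ
  /-- every orbit has `m` elements -/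
  card : ∀ j, (P j).ncard = m ∧ (L j).ncard = m
  /-- the orbits are disjoint, so there are `3 m` points and `3 m` lines -/
  disjoint : ∀ i j, i ≠ j → Disjoint (P i) (P j) ∧ Disjoint (L i) (L j)
  /-- a dihedral group of order `2 m` with centre `0` acts transitively on every orbit -/
  symmetric : ∃ u : ℂ, ‖u‖ = 1 ∧ ∀ j,
    (∀ f ∈ dihedral m u, f '' P j = P j ∧ ∀ ℓ ∈ L j, f '' ℓ ∈ L j) ∧
    (∀ z ∈ P j, ∀ w ∈ P j, ∃ f ∈ dihedral m u, f z = w) ∧
    ∀ ℓ ∈ L j, ∀ ℓ' ∈ L j, ∃ f ∈ dihedral m u, f '' ℓ = ℓ'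
  /-- every line of `L j` contains exactly four of the points, two of `P j` and two of `P (j + 1)` -/
  line_points : ∀ j, ∀ ℓ ∈ L j, (ℓ ∩ ⋃ i, P i).ncard = 4 ∧ (ℓ ∩ P j).ncard = 2 ∧ (ℓ ∩ P (j + 1)).ncard = 2
  /-- every point of `P j` lies on exactly four of the lines, two of `L j` and two of `L (j - 1)` -/
  point_lines : ∀ j, ∀ z ∈ P j, {ℓ | ℓ ∈ ⋃ i, L i ∧ z ∈ ℓ}.ncard = 4 ∧ {ℓ | ℓ ∈ L j ∧ z ∈ ℓ}.ncard = 2 ∧
    {ℓ | ℓ ∈ L (j - 1) ∧ z ∈ ℓ}.ncard = 2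
  /-- every line of `L j` contains a diagonal of span `s j` of `P j` and a diagonal of span `t j` of `P (j + 1)` -/
  diagonals : ∀ j, ∀ ℓ ∈ L j, (∃ z ∈ P j, z ∈ ℓ ∧ z * ω m ^ s j ∈ ℓ) ∧ ∃ z ∈ P (j + 1), z ∈ ℓ ∧ z * ω m ^ t j ∈ ℓ

/-- The graph whose vertices are the points and the lines; a point and a line are adjacent if the point lies on the
line. -/
def incidenceGraph (P : Fin 3 → Set ℂ) (L : Fin 3 → Set (Set ℂ)) :
    SimpleGraph ({z : ℂ // z ∈ ⋃ j, P j} ⊕ {ℓ : Set ℂ // ℓ ∈ ⋃ j, L j}) :=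
  SimpleGraph.fromRel fun x y => ∃ z ℓ, x = Sum.inl z ∧ y = Sum.inr ℓ ∧ (z : ℂ) ∈ (ℓ : Set ℂ)

/-- The cohort `m#{S, T}` is in one of the families 1, 2, 3, 4 (in this order of `S` and `T`). -/
def InFamilies (m : ℕ) (S T : Multiset ℤ) : Prop :=
  ∃ p q r : ℤ, 0 < p ∧ 0 < q ∧ 0 < r ∧
    (((m : ℤ) = 2 * q ∧ S = {q - p, q - 2 * r, p} ∧ T = {q - 2 * p, q - r, r}) ∨
     ((m : ℤ) = 3 * q ∧ S = {q + p, q - p, p} ∧ T = {q, q, 3 * p}) ∨
     ((m : ℤ) = 6 * q ∧ S = {3 * q - p, r, p} ∧ T = {3 * q - 2 * p, 2 * q, r}) ∨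
     ((m : ℤ) = 10 * q ∧ S = {5 * q - p, 2 * p, p} ∧ T = {|5 * q - 4 * p|, 4 * q, 2 * q}))

/-- The cohort of the symbol is neither trivial nor systematic. -/
def Sporadic (m : ℕ) (s t : Fin 3 → ℕ) : Prop :=
  ({(s 0 : ℤ), (s 1 : ℤ), (s 2 : ℤ)} : Multiset ℤ) ≠ {(t 0 : ℤ), (t 1 : ℤ), (t 2 : ℤ)} ∧
  ¬ InFamilies m {(s 0 : ℤ), (s 1 : ℤ), (s 2 : ℤ)} {(t 0 : ℤ), (t 1 : ℤ), (t 2 : ℤ)} ∧
  ¬ InFamilies m {(t 0 : ℤ), (t 1 : ℤ), (t 2 : ℤ)} {(s 0 : ℤ), (s 1 : ℤ), (s 2 : ℤ)}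

/-- There is a connected sporadic 3-astral 4-configuration with the symbol `m#(s 0, t 0; s 1, t 1; s 2, t 2)`. -/
def SporadicConfiguration (m : ℕ) (s t : Fin 3 → ℕ) : Prop :=
  Sporadic m s t ∧ ∃ (P : Fin 3 → Set ℂ) (L : Fin 3 → Set (Set ℂ)),
    IsThreeAstral m s t P L ∧ (incidenceGraph P L).Connected

open Pool.Agent.Q331.AST (E th ln E_add E_zero E_ne_zero norm_E E_re E_neg E_conj th_mul th_pos E_eq_iff cos_iff
  mem_ln ln_eq_iff rot_ln conj_ln ncard_values)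

lemma omega_pow {m : ℕ} (hm : 0 < m) (k : ℕ) : ω m ^ k = E m (2 * k) := by
  have h1 : ω m = E m 2 := by
    unfold ω E th
    congr 1
    have : (m : ℂ) ≠ 0 := by exact_mod_cast hm.ne'
    push_cast
    ring
  rw [h1]
  induction k with
  | zero => simp [E_zero]
  | succ k ih =>
    rw [pow_succ, ih, ← E_add]
    congr 1

lemma exists_pow {m : ℕ} (hm : 0 < m) (c : ℤ) : ∃ k : ℕ, ω m ^ k = E m (2 * c) := by
  have hm' : (m : ℤ) ≠ 0 := by exact_mod_cast hm.ne'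
  refine ⟨(c % m).toNat, ?_⟩
  rw [omega_pow hm, E_eq_iff hm, Int.toNat_of_nonneg (Int.emod_nonneg c hm')]
  exact ⟨-(c / m), by have := Int.emod_add_mul_ediv c m; linear_combination 2 * this⟩

/-- an orbit of points -/
def Pset (m : ℕ) (r : ℝ) (δ : ℤ) : Set ℂ := {w | ∃ k : ℤ, w = r * E m (2 * k + δ)}

/-- an orbit of lines -/
def Lset (m : ℕ) (d : ℝ) (β : ℤ) : Set (Set ℂ) := {ℓ | ∃ k : ℤ, ℓ = ln m d (2 * k + β)}

lemma Pset_eq {m : ℕ} (hm : 0 < m) (r : ℝ) (δ : ℤ) : Pset m r δ = vertices m (r * E m δ) := by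
  ext w
  constructor
  · rintro ⟨k, rfl⟩
    obtain ⟨n, hn⟩ := exists_pow hm k
    refine ⟨n, ?_⟩
    rw [hn, E_add]
    ring
  · rintro ⟨k, rfl⟩
    refine ⟨k, ?_⟩
    rw [omega_pow hm, E_add]
    ring

lemma two_dvd_iff {m : ℕ} (k k' : ℤ) : (2 * m : ℤ) ∣ 2 * k - 2 * k' ↔ (m : ℤ) ∣ k - k' := by
  rw [← mul_sub]
  exact mul_dvd_mul_iff_left (by norm_num)

lemma Pset_card {m : ℕ} (hm : 0 < m) {r : ℝ} (hr : 0 < r) (δ : ℤ) : (Pset m r δ).Finite ∧ (Pset m r δ).ncard = m := by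
  apply ncard_values _ m hm
  intro k k'
  have hr' : (r : ℂ) ≠ 0 := by exact_mod_cast hr.ne'
  rw [mul_right_inj' hr', E_eq_iff hm, ← two_dvd_iff]
  have : 2 * k + δ - (2 * k' + δ) = 2 * k - 2 * k' := by ring
  rw [this]

lemma Lset_card {m : ℕ} (hm : 0 < m) {d : ℝ} (hd : 0 < d) (β : ℤ) : (Lset m d β).Finite ∧ (Lset m d β).ncard = m := by
  apply ncard_values _ m hm
  intro k k'
  rw [ln_eq_iff hm hd hd, ← two_dvd_iff]
  have : 2 * k + β - (2 * k' + β) = 2 * k - 2 * k' := by ring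
  rw [this]
  simp

lemma Pset_disj {m : ℕ} {r r' : ℝ} (hr : 0 < r) (hr' : 0 < r') (h : r ≠ r') (δ δ' : ℤ) :
    Disjoint (Pset m r δ) (Pset m r' δ') := by
  rw [Set.disjoint_left]
  rintro w ⟨k, rfl⟩ ⟨k', hk'⟩
  apply h
  have := congrArg norm hk'
  rw [norm_mul, norm_mul, norm_E, norm_E, mul_one, mul_one, norm_real, norm_real, Real.norm_eq_abs,
    Real.norm_eq_abs, abs_of_pos hr, abs_of_pos hr'] at this
  exact this

lemma Lset_disj {m : ℕ} (hm : 0 < m) {d d' : ℝ} (hd : 0 < d) (hd' : 0 < d') (h : d ≠ d') (β β' : ℤ) :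
    Disjoint (Lset m d β) (Lset m d' β') := by
  rw [Set.disjoint_left]
  rintro w ⟨k, rfl⟩ ⟨k', hk'⟩
  rw [ln_eq_iff hm hd hd'] at hk'
  exact h hk'.1

lemma rot_P {m : ℕ} (r : ℝ) (δ c : ℤ) : (fun z => E m (2 * c) * z) '' Pset m r δ = Pset m r δ := by
  ext w
  rw [Set.mem_image]
  constructor
  · rintro ⟨z, ⟨k, rfl⟩, rfl⟩
    refine ⟨k + c, ?_⟩
    have h1 : E m (2 * (k + c) + δ) = E m (2 * c) * E m (2 * k + δ) := by
      rw [← E_add]
      congr 1
      ring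
    rw [h1]
    ring
  · rintro ⟨k, rfl⟩
    refine ⟨r * E m (2 * (k - c) + δ), ⟨k - c, rfl⟩, ?_⟩
    have h1 : E m (2 * k + δ) = E m (2 * c) * E m (2 * (k - c) + δ) := by
      rw [← E_add]
      congr 1
      ring
    rw [h1]
    ring

lemma conj_P {m : ℕ} (r : ℝ) (δ : ℤ) : (starRingEnd ℂ) '' Pset m r δ = Pset m r δ := by
  have key : ∀ w ∈ Pset m r δ, (starRingEnd ℂ) w ∈ Pset m r δ := by
    rintro w ⟨k, rfl⟩
    refine ⟨-k - δ, ?_⟩
    rw [map_mul, conj_ofReal, E_conj]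
    congr 2
    ring
  ext w
  rw [Set.mem_image]
  constructor
  · rintro ⟨z, hz, rfl⟩
    exact key z hz
  · intro hw
    exact ⟨_, key w hw, by simp⟩

/-- the points of an orbit on a line -/
lemma inter {m : ℕ} (hm : 0 < m) {r d : ℝ} (hr : 0 < r) (δ β : ℤ) (σ : ℕ) (hσ : 1 ≤ σ) (hσ' : 2 * σ < m)
    (hpar : (2 : ℤ) ∣ β - δ - σ)
    (h : ∀ h : ℤ, r * Real.cos (h * th m) = d ↔ (2 * m : ℤ) ∣ h - σ ∨ (2 * m : ℤ) ∣ h + σ) (k : ℤ) :
    (ln m d (2 * k + β) ∩ Pset m r δ).ncard = 2 ∧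
    ∃ z ∈ Pset m r δ, z ∈ ln m d (2 * k + β) ∧ z * ω m ^ σ ∈ ln m d (2 * k + β) := by
  obtain ⟨e, he⟩ := hpar
  have hr' : (r : ℂ) ≠ 0 := by exact_mod_cast hr.ne'
  have hmem1 : (r : ℂ) * E m (2 * k + β + σ) ∈ ln m d (2 * k + β) := by
    rw [mem_ln, h]
    left
    rw [show 2 * k + β + σ - (2 * k + β) - σ = (0 : ℤ) by ring]
    exact dvd_zero _
  have hmem2 : (r : ℂ) * E m (2 * k + β - σ) ∈ ln m d (2 * k + β) := by
    rw [mem_ln, h]
    right
    rw [show 2 * k + β - σ - (2 * k + β) + σ = (0 : ℤ) by ring]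
    exact dvd_zero _
  have hP1 : (r : ℂ) * E m (2 * k + β + σ) ∈ Pset m r δ := by
    refine ⟨k + e + σ, ?_⟩
    congr 2
    linear_combination he
  have hP2 : (r : ℂ) * E m (2 * k + β - σ) ∈ Pset m r δ := by
    refine ⟨k + e, ?_⟩
    congr 2
    linear_combination he
  constructor
  · have h1 : ln m d (2 * k + β) ∩ Pset m r δ =
        {(r : ℂ) * E m (2 * k + β + σ), (r : ℂ) * E m (2 * k + β - σ)} := by
      ext z
      rw [Set.mem_inter_iff, Set.mem_insert_iff, Set.mem_singleton_iff]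
      constructor
      · rintro ⟨hz, k', rfl⟩
        rw [mem_ln, h] at hz
        rw [mul_right_inj' hr', mul_right_inj' hr', E_eq_iff hm, E_eq_iff hm]
        rcases hz with hz | hz
        · left
          convert hz using 1
          ring
        · right
          convert hz using 1
          ring
      · rintro (rfl | rfl)
        · exact ⟨hmem1, hP1⟩
        · exact ⟨hmem2, hP2⟩
    rw [h1]
    apply Set.ncard_pair
    rw [Ne, mul_right_inj' hr', E_eq_iff hm]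
    intro h2
    have h3 : 2 * k + β + (σ : ℤ) - (2 * k + β - σ) = 2 * σ := by ring
    rw [h3] at h2
    have := Int.le_of_dvd (by omega) h2
    omega
  · refine ⟨_, hP2, hmem2, ?_⟩
    have : (r : ℂ) * E m (2 * k + β - σ) * ω m ^ σ = r * E m (2 * k + β + σ) := by
      rw [omega_pow hm, mul_assoc, ← E_add]
      congr 2
      ring
    rw [this]
    exact hmem1

/-- no points of an orbit on a line -/
lemma inter_none {m : ℕ} {r d : ℝ} (δ b : ℤ) (h : ∀ h : ℤ, r * Real.cos (h * th m) ≠ d) :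
    ln m d b ∩ Pset m r δ = ∅ := by
  rw [Set.eq_empty_iff_forall_notMem]
  rintro z ⟨hz, k, rfl⟩
  rw [mem_ln] at hz
  exact h _ hz

/-- the lines of an orbit through a point -/
lemma through {m : ℕ} (hm : 0 < m) {r d : ℝ} (hd : 0 < d) (δ β : ℤ) (σ : ℕ) (hσ : 1 ≤ σ) (hσ' : 2 * σ < m)
    (hpar : (2 : ℤ) ∣ β - δ - σ)
    (h : ∀ h : ℤ, r * Real.cos (h * th m) = d ↔ (2 * m : ℤ) ∣ h - σ ∨ (2 * m : ℤ) ∣ h + σ) (k : ℤ) :
    {ℓ | ℓ ∈ Lset m d β ∧ (r : ℂ) * E m (2 * k + δ) ∈ ℓ}.ncard = 2 := by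
  obtain ⟨e, he⟩ := hpar
  have h1 : {ℓ | ℓ ∈ Lset m d β ∧ (r : ℂ) * E m (2 * k + δ) ∈ ℓ} =
      {ln m d (2 * k + δ - σ), ln m d (2 * k + δ + σ)} := by
    ext ℓ
    rw [Set.mem_insert_iff, Set.mem_singleton_iff]
    constructor
    · rintro ⟨⟨k', rfl⟩, hz⟩
      rw [mem_ln, h] at hz
      rw [ln_eq_iff hm hd hd, ln_eq_iff hm hd hd]
      rcases hz with ⟨w, hw⟩ | ⟨w, hw⟩
      · left
        exact ⟨rfl, -w, by linear_combination -hw⟩
      · right
        exact ⟨rfl, -w, by linear_combination -hw⟩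
    · rintro (rfl | rfl)
      · refine ⟨⟨k - e - σ, ?_⟩, ?_⟩
        · congr 1
          linear_combination -he
        · rw [mem_ln, h]
          left
          rw [show 2 * k + δ - (2 * k + δ - σ) - σ = (0 : ℤ) by ring]
          exact dvd_zero _
      · refine ⟨⟨k - e, ?_⟩, ?_⟩
        · congr 1
          linear_combination -he
        · rw [mem_ln, h]
          right
          rw [show 2 * k + δ - (2 * k + δ + σ) + σ = (0 : ℤ) by ring]
          exact dvd_zero _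
  rw [h1]
  apply Set.ncard_pair
  rw [Ne, ln_eq_iff hm hd hd]
  rintro ⟨-, h2⟩
  have h3 : 2 * k + δ - (σ : ℤ) - (2 * k + δ + σ) = -(2 * σ) := by ring
  rw [h3, dvd_neg] at h2
  have := Int.le_of_dvd (by omega) h2
  omega

lemma through_none {m : ℕ} {r d : ℝ} (a β : ℤ) (h : ∀ h : ℤ, r * Real.cos (h * th m) ≠ d) :
    {ℓ | ℓ ∈ Lset m d β ∧ (r : ℂ) * E m a ∈ ℓ} = ∅ := by
  rw [Set.eq_empty_iff_forall_notMem]
  rintro ℓ ⟨⟨k, rfl⟩, hz⟩
  rw [mem_ln] at hz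
  exact h _ hz

lemma ncard_three {α : Type*} (A : Fin 3 → Set α) (hf : ∀ i, (A i).Finite) (hd : ∀ i j, i ≠ j → Disjoint (A i) (A j))
    (j : Fin 3) : (⋃ i, A i).ncard = (A j).ncard + (A (j + 1)).ncard + (A (j + 2)).ncard := by
  have h1 : (⋃ i, A i) = A 0 ∪ (A 1 ∪ A 2) := by
    ext x
    simp [Fin.exists_fin_succ]
  rw [h1, Set.ncard_union_eq (Set.disjoint_union_right.2 ⟨hd 0 1 (by decide), hd 0 2 (by decide)⟩) (hf 0)
    ((hf 1).union (hf 2)), Set.ncard_union_eq (hd 1 2 (by decide)) (hf 1) (hf 2)]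
  fin_cases j
  · simp; ring
  · simp; ring
  · simp; ring

/-- the data of a configuration -/
structure Good (m : ℕ) (r d : Fin 3 → ℝ) (δ β : Fin 3 → ℤ) (s t : Fin 3 → ℕ) : Prop where
  m3 : 3 ≤ m
  rpos : ∀ j, 0 < r j
  dpos : ∀ j, 0 < d j
  rinj : ∀ i j, i ≠ j → r i ≠ r j
  dinj : ∀ i j, i ≠ j → d i ≠ d j
  sr : ∀ j, 1 ≤ s j ∧ 2 * s j < m ∧ 1 ≤ t j ∧ 2 * t j < m
  ps : ∀ j, (2 : ℤ) ∣ β j - δ j - s j
  pt : ∀ j, (2 : ℤ) ∣ β j - δ (j + 1) - t j
  h0 : ∀ j, ∀ h : ℤ, r j * Real.cos (h * th m) = d j ↔ (2 * m : ℤ) ∣ h - s j ∨ (2 * m : ℤ) ∣ h + s j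
  h1 : ∀ j, ∀ h : ℤ, r (j + 1) * Real.cos (h * th m) = d j ↔ (2 * m : ℤ) ∣ h - t j ∨ (2 * m : ℤ) ∣ h + t j
  h2 : ∀ j, ∀ h : ℤ, r (j + 2) * Real.cos (h * th m) ≠ d j

theorem astral {m : ℕ} {r d : Fin 3 → ℝ} {δ β : Fin 3 → ℤ} {s t : Fin 3 → ℕ} (g : Good m r d δ β s t) :
    IsThreeAstral m s t (fun j => Pset m (r j) (δ j)) (fun j => Lset m (d j) (β j)) := by
  have hm : 0 < m := by have := g.m3; omega
  have hPd : ∀ i j, i ≠ j → Disjoint (Pset m (r i) (δ i)) (Pset m (r j) (δ j)) := fun i j hij =>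
    Pset_disj (g.rpos i) (g.rpos j) (g.rinj i j hij) _ _
  have hLd : ∀ i j, i ≠ j → Disjoint (Lset m (d i) (β i)) (Lset m (d j) (β j)) := fun i j hij =>
    Lset_disj hm (g.dpos i) (g.dpos j) (g.dinj i j hij) _ _
  refine ⟨g.m3, g.sr, ?_, ?_, ?_, fun i j hij => ⟨hPd i j hij, hLd i j hij⟩, ?_, ?_, ?_, ?_⟩
  · intro j
    have hr : ((r j : ℝ) : ℂ) ≠ 0 := by exact_mod_cast (g.rpos j).ne'
    exact ⟨_, mul_ne_zero hr (E_ne_zero m (δ j)), Pset_eq hm _ _⟩
  · rintro j ℓ ⟨k, rfl⟩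
    exact Pool.Agent.Q331.AST.isLine_ln _ _ _
  · intro j
    exact ⟨(Pset_card hm (g.rpos j) _).2, (Lset_card hm (g.dpos j) _).2⟩
  · refine ⟨1, by simp, fun j => ⟨?_, ?_, ?_⟩⟩
    · rintro f ⟨k, hf | hf⟩
      · have hf' : f = fun z => E m (2 * (k : ℤ)) * z := by
          funext z
          rw [hf z, omega_pow hm]
        rw [hf']
        refine ⟨rot_P _ _ _, ?_⟩
        rintro ℓ ⟨k', rfl⟩
        rw [rot_ln]
        exact ⟨k' + k, by congr 1; ring⟩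
      · have hf' : f = (fun z => E m (2 * (k : ℤ)) * z) ∘ (starRingEnd ℂ) := by
          funext z
          rw [hf z, omega_pow hm, one_mul]
          rfl
        rw [hf']
        refine ⟨?_, ?_⟩
        · rw [Set.image_comp, conj_P, rot_P]
        · rintro ℓ ⟨k', rfl⟩
          rw [Set.image_comp, conj_ln, rot_ln]
          exact ⟨-k' - β j + k, by congr 1; ring⟩
    · rintro z ⟨k, rfl⟩ w ⟨k', rfl⟩
      obtain ⟨n, hn⟩ := exists_pow hm (k' - k)
      refine ⟨fun z => ω m ^ n * z, ⟨n, Or.inl fun z => rfl⟩, ?_⟩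
      simp only
      rw [hn, show 2 * k' + δ j = 2 * (k' - k) + (2 * k + δ j) by ring, E_add m (2 * (k' - k))]
      ring
    · rintro ℓ ⟨k, rfl⟩ ℓ' ⟨k', rfl⟩
      obtain ⟨n, hn⟩ := exists_pow hm (k' - k)
      refine ⟨fun z => ω m ^ n * z, ⟨n, Or.inl fun z => rfl⟩, ?_⟩
      rw [hn, rot_ln]
      congr 1
      ring
  · rintro j ℓ ⟨k, rfl⟩
    have i0 := inter hm (g.rpos j) (δ j) (β j) (s j) (g.sr j).1 (g.sr j).2.1 (g.ps j) (g.h0 j) k
    have i1 := inter hm (g.rpos (j + 1)) (δ (j + 1)) (β j) (t j) (g.sr j).2.2.1 (g.sr j).2.2.2 (g.pt j) (g.h1 j) k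
    have i2 := inter_none (m := m) (δ (j + 2)) (2 * k + β j) (g.h2 j)
    refine ⟨?_, i0.1, i1.1⟩
    rw [Set.inter_iUnion, ncard_three _ (fun i => (Pset_card hm (g.rpos i) _).1.subset Set.inter_subset_right)
      (fun a b hab => (hPd a b hab).mono Set.inter_subset_right Set.inter_subset_right) j, i0.1, i1.1, i2,
      Set.ncard_empty]
  · rintro j z ⟨k, rfl⟩
    have e1 : j - 1 + 1 = j := by fin_cases j <;> rfl
    have e2 : j + 1 + 2 = j := by fin_cases j <;> rfl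
    have e3 : j - 1 = j + 2 := by fin_cases j <;> rfl
    have i0 := through hm (g.dpos j) (δ j) (β j) (s j) (g.sr j).1 (g.sr j).2.1 (g.ps j) (g.h0 j) k
    have hpt := g.pt (j - 1)
    have hh1 := g.h1 (j - 1)
    rw [e1] at hpt hh1
    have i1 := through hm (g.dpos (j - 1)) (δ j) (β (j - 1)) (t (j - 1)) (g.sr (j - 1)).2.2.1 (g.sr (j - 1)).2.2.2
      hpt hh1 k
    have hh2 := g.h2 (j + 1)
    rw [e2] at hh2
    have i2 := through_none (m := m) (2 * k + δ j) (β (j + 1)) hh2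
    refine ⟨?_, i0, i1⟩
    have hU : {ℓ | ℓ ∈ ⋃ i, Lset m (d i) (β i) ∧ ((r j : ℝ) : ℂ) * E m (2 * k + δ j) ∈ ℓ} =
        ⋃ i, {ℓ | ℓ ∈ Lset m (d i) (β i) ∧ ((r j : ℝ) : ℂ) * E m (2 * k + δ j) ∈ ℓ} := by
      ext ℓ
      simp
    rw [hU, ncard_three _ (fun i => (Lset_card hm (g.dpos i) _).1.subset (fun ℓ hℓ => hℓ.1))
      (fun a b hab => (hLd a b hab).mono (fun ℓ hℓ => hℓ.1) (fun ℓ hℓ => hℓ.1)) j, i0, i2, Set.ncard_empty, ← e3, i1]
  · rintro j ℓ ⟨k, rfl⟩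
    have i0 := inter hm (g.rpos j) (δ j) (β j) (s j) (g.sr j).1 (g.sr j).2.1 (g.ps j) (g.h0 j) k
    have i1 := inter hm (g.rpos (j + 1)) (δ (j + 1)) (β j) (t j) (g.sr j).2.2.1 (g.sr j).2.2.2 (g.pt j) (g.h1 j) k
    exact ⟨i0.2, i1.2⟩

/-- the radii -/
noncomputable def rad (l : ℕ) : Fin 3 → ℝ := ![1, 2 * Real.cos (th (30 * l)), 2 * Real.cos (Real.pi / 5)]

/-- the distances of the lines from the centre -/
noncomputable def dist (l : ℕ) : Fin 3 → ℝ :=
  ![Real.cos (th (30 * l)), 2 * Real.cos (Real.pi / 5) * Real.cos (th (30 * l)), 1 / 2]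

lemma th_le {l : ℕ} (hl : 0 < l) : th (30 * l) ≤ 0.105 := by
  have hl1 : (1 : ℝ) ≤ l := by exact_mod_cast hl
  have : th (30 * l) = Real.pi / 30 / l := by
    unfold th
    push_cast
    field_simp
  rw [this]
  calc Real.pi / 30 / l ≤ Real.pi / 30 / 1 := by
        apply div_le_div_of_nonneg_left (by positivity) (by norm_num) hl1
    _ ≤ 0.105 := by linarith [Real.pi_lt_d2]

lemma cos_bounds {l : ℕ} (hl : 0 < l) : 0.99 < Real.cos (th (30 * l)) ∧ Real.cos (th (30 * l)) ≤ 1 := by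
  refine ⟨?_, Real.cos_le_one _⟩
  have h1 := Real.one_sub_sq_div_two_le_cos (x := th (30 * l))
  have h2 := th_le hl
  have h3 := th_pos (show 0 < 30 * l by omega)
  nlinarith

lemma fifth_bounds : 1.618 < 2 * Real.cos (Real.pi / 5) ∧ 2 * Real.cos (Real.pi / 5) < 1.6185 := by
  obtain ⟨s1, s2⟩ := Pool.Agent.Q331.AST.sqrt5_bounds
  rw [Real.cos_pi_div_five]
  constructor <;> linarith

lemma good {l : ℕ} (hl : 0 < l) (hodd : Odd l) (h7 : ¬ 7 ∣ l) :
    Good (30 * l) (rad l) (dist l) ![0, 1, 0] ![1, 1, 0] ![1, 6 * l, 12 * l] ![10 * l, 1, 10 * l] := by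
  have hm : 0 < 30 * l := by omega
  obtain ⟨c1, c2⟩ := cos_bounds hl
  obtain ⟨f1, f2⟩ := fifth_bounds
  have hc0 : Real.cos (th (30 * l)) ≠ 0 := by linarith
  have hf0 : 2 * Real.cos (Real.pi / 5) ≠ 0 := by linarith
  have hprod := Pool.Agent.Q331.AST.cos_prod
  have k1 : ∀ h : ℤ, Real.cos (h * th (30 * l)) = Real.cos (th (30 * l)) ↔
      (2 * (30 * l : ℕ) : ℤ) ∣ h - (1 : ℕ) ∨ (2 * (30 * l : ℕ) : ℤ) ∣ h + (1 : ℕ) := by
    intro h
    have := cos_iff hm h ((1 : ℕ) : ℤ)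
    rw [← this]
    simp
  have k10 : ∀ h : ℤ, Real.cos (h * th (30 * l)) = 1 / 2 ↔
      (2 * (30 * l : ℕ) : ℤ) ∣ h - (10 * l : ℕ) ∨ (2 * (30 * l : ℕ) : ℤ) ∣ h + (10 * l : ℕ) := by
    intro h
    have := cos_iff hm h ((10 * l : ℕ) : ℤ)
    rw [← this, ← Pool.Agent.Q331.AST.cos_tenth hl, Int.cast_natCast]
  have k6 : ∀ h : ℤ, Real.cos (h * th (30 * l)) = Real.cos (Real.pi / 5) ↔
      (2 * (30 * l : ℕ) : ℤ) ∣ h - (6 * l : ℕ) ∨ (2 * (30 * l : ℕ) : ℤ) ∣ h + (6 * l : ℕ) := by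
    intro h
    have := cos_iff hm h ((6 * l : ℕ) : ℤ)
    rw [← this, ← Pool.Agent.Q331.AST.cos_sixth hl, Int.cast_natCast]
  have k12 : ∀ h : ℤ, Real.cos (h * th (30 * l)) = Real.cos (2 * Real.pi / 5) ↔
      (2 * (30 * l : ℕ) : ℤ) ∣ h - (12 * l : ℕ) ∨ (2 * (30 * l : ℕ) : ℤ) ∣ h + (12 * l : ℕ) := by
    intro h
    have := cos_iff hm h ((12 * l : ℕ) : ℤ)
    rw [← this, ← Pool.Agent.Q331.AST.cos_twelfth hl, Int.cast_natCast]
  obtain ⟨j, hj⟩ := hodd
  have R0 : rad l 0 = 1 := rfl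
  have R1 : rad l 1 = 2 * Real.cos (th (30 * l)) := rfl
  have R2 : rad l 2 = 2 * Real.cos (Real.pi / 5) := rfl
  have D0 : dist l 0 = Real.cos (th (30 * l)) := rfl
  have D1 : dist l 1 = 2 * Real.cos (Real.pi / 5) * Real.cos (th (30 * l)) := rfl
  have D2 : dist l 2 = 1 / 2 := rfl
  have D1' : 1.6 < 2 * Real.cos (Real.pi / 5) * Real.cos (th (30 * l)) := by nlinarith
  refine ⟨by omega, ?_, ?_, ?_, ?_, ?_, ?_, ?_, ?_, ?_, ?_⟩
  · intro i
    fin_cases i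
    · change 0 < rad l 0; rw [R0]; norm_num
    · change 0 < rad l 1; rw [R1]; linarith
    · change 0 < rad l 2; rw [R2]; linarith
  · intro i
    fin_cases i
    · change 0 < dist l 0; rw [D0]; linarith
    · change 0 < dist l 1; rw [D1]; linarith
    · change 0 < dist l 2; rw [D2]; norm_num
  · have a01 : rad l 0 < rad l 2 := by rw [R0, R2]; linarith
    have a12 : rad l 2 < rad l 1 := by rw [R1, R2]; linarith
    intro i i' hii
    fin_cases i <;> fin_cases i' <;> simp at hii ⊢ <;> (first | exact a01.ne | exact a01.ne' | exact a12.ne | exact a12.ne' | exact (a01.trans a12).ne | exact (a01.trans a12).ne')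
  · have a20 : dist l 2 < dist l 0 := by rw [D0, D2]; linarith
    have a01 : dist l 0 < dist l 1 := by rw [D0, D1]; linarith
    intro i i' hii
    fin_cases i <;> fin_cases i' <;> simp at hii ⊢ <;> (first | exact a01.ne | exact a01.ne' | exact a20.ne | exact a20.ne' | exact (a20.trans a01).ne | exact (a20.trans a01).ne')
  · intro i
    fin_cases i <;> simp <;> omega
  · intro i
    fin_cases i <;> simp <;> omega
  · intro i
    fin_cases i <;> simp <;> omega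
  · intro i h
    fin_cases i
    · simp only [rad, dist]
      simpa using k1 h
    · have e : rad l 1 * Real.cos (h * th (30 * l)) = dist l 1 ↔
          Real.cos (h * th (30 * l)) = Real.cos (Real.pi / 5) := by
        rw [R1, D1]
        constructor
        · intro h3
          apply mul_left_cancel₀ (mul_ne_zero two_ne_zero hc0)
          linarith
        · intro h3
          rw [h3]; ring
      exact e.trans (k6 h)
    · have e : rad l 2 * Real.cos (h * th (30 * l)) = dist l 2 ↔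
          Real.cos (h * th (30 * l)) = Real.cos (2 * Real.pi / 5) := by
        have e1 : rad l 2 = 2 * Real.cos (Real.pi / 5) := rfl
        have e2 : dist l 2 = 1 / 2 := rfl
        rw [e1, e2]
        constructor
        · intro h3
          apply mul_left_cancel₀ hf0
          linarith
        · intro h3
          rw [h3]; linarith
      exact e.trans (k12 h)
  · intro i h
    fin_cases i
    · have e : rad l 1 * Real.cos (h * th (30 * l)) = dist l 0 ↔ Real.cos (h * th (30 * l)) = 1 / 2 := by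
        have e1 : rad l 1 = 2 * Real.cos (th (30 * l)) := rfl
        have e2 : dist l 0 = Real.cos (th (30 * l)) := rfl
        rw [e1, e2]
        constructor
        · intro h3
          apply mul_left_cancel₀ (mul_ne_zero two_ne_zero hc0)
          linarith
        · intro h3
          rw [h3]; ring
      exact e.trans (k10 h)
    · have e : rad l 2 * Real.cos (h * th (30 * l)) = dist l 1 ↔
          Real.cos (h * th (30 * l)) = Real.cos (th (30 * l)) := by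
        have e1 : rad l 2 = 2 * Real.cos (Real.pi / 5) := rfl
        have e2 : dist l 1 = 2 * Real.cos (Real.pi / 5) * Real.cos (th (30 * l)) := rfl
        rw [e1, e2]
        exact mul_right_inj' hf0
      exact e.trans (k1 h)
    · have e : rad l 0 * Real.cos (h * th (30 * l)) = dist l 2 ↔ Real.cos (h * th (30 * l)) = 1 / 2 := by
        have e1 : rad l 0 = 1 := rfl
        have e2 : dist l 2 = 1 / 2 := rfl
        rw [e1, e2, one_mul]
      exact e.trans (k10 h)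
  · intro i h
    fin_cases i
    · exact Pool.Agent.Q331.AST.no_one hl h7 h
    · have e1 : rad l 0 = 1 := rfl
      have e2 : dist l 1 = 2 * Real.cos (Real.pi / 5) * Real.cos (th (30 * l)) := rfl
      change rad l 0 * _ ≠ dist l 1
      rw [e1, e2, one_mul]
      have := Real.cos_le_one (h * th (30 * l))
      nlinarith
    · exact Pool.Agent.Q331.AST.no_two hl ⟨j, hj⟩ h

lemma connected {l : ℕ} (hl : 0 < l) (hodd : Odd l) (h7 : ¬ 7 ∣ l) :
    (incidenceGraph (fun j => Pset (30 * l) (rad l j) ((![0, 1, 0] : Fin 3 → ℤ) j))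
      (fun j => Lset (30 * l) (dist l j) ((![1, 1, 0] : Fin 3 → ℤ) j))).Connected := by
  have g := good hl hodd h7
  set P : Fin 3 → Set ℂ := fun j => Pset (30 * l) (rad l j) ((![0, 1, 0] : Fin 3 → ℤ) j) with hP
  set L : Fin 3 → Set (Set ℂ) := fun j => Lset (30 * l) (dist l j) ((![1, 1, 0] : Fin 3 → ℤ) j) with hL
  set G := incidenceGraph P L with hG
  have adj : ∀ (z : {z : ℂ // z ∈ ⋃ j, P j}) (ℓ : {ℓ : Set ℂ // ℓ ∈ ⋃ j, L j}), (z : ℂ) ∈ (ℓ : Set ℂ) →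
      G.Reachable (Sum.inl z) (Sum.inr ℓ) := by
    intro z ℓ h
    apply SimpleGraph.Adj.reachable
    rw [hG, incidenceGraph, SimpleGraph.fromRel_adj]
    exact ⟨by simp, Or.inl ⟨z, ℓ, rfl, rfl, h⟩⟩
  -- points of the form
  have mem0 : ∀ k : ℤ, ((rad l 0 : ℝ) : ℂ) * E (30 * l) (2 * k) ∈ ⋃ j, P j := by
    intro k
    rw [Set.mem_iUnion]
    refine ⟨0, k, ?_⟩
    simp
  have mem1 : ∀ k : ℤ, ((rad l 1 : ℝ) : ℂ) * E (30 * l) (2 * k + 1) ∈ ⋃ j, P j := by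
    intro k
    rw [Set.mem_iUnion]
    exact ⟨1, k, rfl⟩
  have mem2 : ∀ k : ℤ, ((rad l 2 : ℝ) : ℂ) * E (30 * l) (2 * k) ∈ ⋃ j, P j := by
    intro k
    rw [Set.mem_iUnion]
    refine ⟨2, k, ?_⟩
    simp
  have lmem0 : ∀ k : ℤ, ln (30 * l) (dist l 0) (2 * k + 1) ∈ ⋃ j, L j := by
    intro k
    rw [Set.mem_iUnion]
    exact ⟨0, k, rfl⟩
  have lmem2 : ∀ k : ℤ, ln (30 * l) (dist l 2) (2 * k) ∈ ⋃ j, L j := by
    intro k
    rw [Set.mem_iUnion]
    refine ⟨2, k, ?_⟩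
    simp
  -- incidences
  have a0 : ∀ b : ℤ, ((rad l 0 : ℝ) : ℂ) * E (30 * l) (b - 1) ∈ ln (30 * l) (dist l 0) b := by
    intro b
    rw [mem_ln]
    refine (g.h0 0 _).2 (Or.inr ?_)
    change (2 * (30 * l : ℕ) : ℤ) ∣ b - 1 - b + ((1 : ℕ) : ℤ)
    rw [show b - 1 - b + ((1 : ℕ) : ℤ) = 0 by push_cast; ring]
    exact dvd_zero _
  have a0' : ∀ b : ℤ, ((rad l 0 : ℝ) : ℂ) * E (30 * l) (b + 1) ∈ ln (30 * l) (dist l 0) b := by
    intro b
    rw [mem_ln]
    refine (g.h0 0 _).2 (Or.inl ?_)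
    change (2 * (30 * l : ℕ) : ℤ) ∣ b + 1 - b - ((1 : ℕ) : ℤ)
    rw [show b + 1 - b - ((1 : ℕ) : ℤ) = 0 by push_cast; ring]
    exact dvd_zero _
  have a1 : ∀ b : ℤ, ((rad l 1 : ℝ) : ℂ) * E (30 * l) (b + 10 * l) ∈ ln (30 * l) (dist l 0) b := by
    intro b
    rw [mem_ln]
    refine (g.h1 0 _).2 (Or.inl ?_)
    change (2 * (30 * l : ℕ) : ℤ) ∣ b + 10 * l - b - ((10 * l : ℕ) : ℤ)
    rw [show b + 10 * l - b - ((10 * l : ℕ) : ℤ) = 0 by push_cast; ring]
    exact dvd_zero _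
  have a2 : ∀ b : ℤ, ((rad l 2 : ℝ) : ℂ) * E (30 * l) (b + 12 * l) ∈ ln (30 * l) (dist l 2) b := by
    intro b
    rw [mem_ln]
    refine (g.h0 2 _).2 (Or.inl ?_)
    change (2 * (30 * l : ℕ) : ℤ) ∣ b + 12 * l - b - ((12 * l : ℕ) : ℤ)
    rw [show b + 12 * l - b - ((12 * l : ℕ) : ℤ) = 0 by push_cast; ring]
    exact dvd_zero _
  have a20 : ∀ b : ℤ, ((rad l 0 : ℝ) : ℂ) * E (30 * l) (b + 10 * l) ∈ ln (30 * l) (dist l 2) b := by
    intro b
    rw [mem_ln]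
    refine (g.h1 2 _).2 (Or.inl ?_)
    change (2 * (30 * l : ℕ) : ℤ) ∣ b + 10 * l - b - ((10 * l : ℕ) : ℤ)
    rw [show b + 10 * l - b - ((10 * l : ℕ) : ℤ) = 0 by push_cast; ring]
    exact dvd_zero _
  -- two points on a line
  have two : ∀ (z w : ℂ) (hz : z ∈ ⋃ j, P j) (hw : w ∈ ⋃ j, P j) (ℓ : Set ℂ), ℓ ∈ ⋃ j, L j → z ∈ ℓ → w ∈ ℓ →
      G.Reachable (Sum.inl ⟨z, hz⟩) (Sum.inl ⟨w, hw⟩) := by
    intro z w hz hw ℓ hℓ h1 h2
    exact (adj ⟨z, hz⟩ ⟨ℓ, hℓ⟩ h1).trans (adj ⟨w, hw⟩ ⟨ℓ, hℓ⟩ h2).symm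
  have stepG : ∀ k : ℤ, G.Reachable (Sum.inl ⟨_, mem0 k⟩) (Sum.inl ⟨_, mem0 (k + 1)⟩) := by
    intro k
    refine two _ _ (mem0 k) (mem0 (k + 1)) _ (lmem0 k) ?_ ?_
    · have := a0 (2 * k + 1)
      rwa [show 2 * k + 1 - 1 = 2 * k by ring] at this
    · have := a0' (2 * k + 1)
      rwa [show 2 * k + 1 + 1 = 2 * (k + 1) by ring] at this
  have r0 : ∀ k : ℤ, G.Reachable (Sum.inl ⟨_, mem0 0⟩) (Sum.inl ⟨_, mem0 k⟩) := by
    intro k
    induction k using Int.induction_on with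
    | zero => exact SimpleGraph.Reachable.refl _
    | succ i ih => exact ih.trans (stepG i)
    | pred i ih =>
      have := stepG (-i - 1)
      rw [show (-(i : ℤ) - 1 + 1) = -i by ring] at this
      exact ih.trans this.symm
  have r1 : ∀ k : ℤ, G.Reachable (Sum.inl ⟨_, mem0 0⟩) (Sum.inl ⟨_, mem1 k⟩) := by
    intro k
    refine (r0 (k - 5 * l + 1)).trans (two _ _ (mem0 _) (mem1 k) _ (lmem0 (k - 5 * l)) ?_ ?_)
    · have := a0' (2 * (k - 5 * l) + 1)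
      rwa [show 2 * (k - 5 * (l : ℤ)) + 1 + 1 = 2 * (k - 5 * l + 1) by ring] at this
    · have := a1 (2 * (k - 5 * l) + 1)
      rwa [show 2 * (k - 5 * (l : ℤ)) + 1 + 10 * l = 2 * k + 1 by ring] at this
  have r2 : ∀ k : ℤ, G.Reachable (Sum.inl ⟨_, mem0 0⟩) (Sum.inl ⟨_, mem2 k⟩) := by
    intro k
    refine (r0 (k - l)).trans (two _ _ (mem0 _) (mem2 k) _ (lmem2 (k - 6 * l)) ?_ ?_)
    · have := a20 (2 * (k - 6 * l))
      rwa [show 2 * (k - 6 * (l : ℤ)) + 10 * l = 2 * (k - l) by ring] at this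
    · have := a2 (2 * (k - 6 * l))
      rwa [show 2 * (k - 6 * (l : ℤ)) + 12 * l = 2 * k by ring] at this
  have rp : ∀ z : {z : ℂ // z ∈ ⋃ j, P j}, G.Reachable (Sum.inl ⟨_, mem0 0⟩) (Sum.inl z) := by
    rintro ⟨z, hz⟩
    have hz' := hz
    rw [Set.mem_iUnion] at hz'
    obtain ⟨j, k, hk⟩ := hz'
    fin_cases j
    · have e : z = ((rad l 0 : ℝ) : ℂ) * E (30 * l) (2 * k) := by
        rw [hk]
        simp
      subst e
      exact r0 k
    · have e : z = ((rad l 1 : ℝ) : ℂ) * E (30 * l) (2 * k + 1) := hk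
      subst e
      exact r1 k
    · have e : z = ((rad l 2 : ℝ) : ℂ) * E (30 * l) (2 * k) := by
        rw [hk]
        simp
      subst e
      exact r2 k
  have hast := astral g
  rw [SimpleGraph.connected_iff_exists_forall_reachable]
  refine ⟨Sum.inl ⟨_, mem0 0⟩, ?_⟩
  rintro (z | ⟨ℓ, hℓ⟩)
  · exact rp z
  · have hℓ' := hℓ
    rw [Set.mem_iUnion] at hℓ'
    obtain ⟨j, hj⟩ := hℓ'
    obtain ⟨⟨z, hz, hzl, -⟩, -⟩ := hast.diagonals j ℓ hj
    have hz' : z ∈ ⋃ j, P j := Set.mem_iUnion.2 ⟨j, hz⟩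
    exact (rp ⟨z, hz'⟩).trans (adj ⟨z, hz'⟩ ⟨ℓ, hℓ⟩ hzl)

lemma sum_three (a b c : ℤ) : ({a, b, c} : Multiset ℤ).sum = a + b + c := by
  simp [Multiset.insert_eq_cons, add_assoc]

lemma mem_three (x a b c : ℤ) : x ∈ ({a, b, c} : Multiset ℤ) ↔ x = a ∨ x = b ∨ x = c := by
  simp [Multiset.insert_eq_cons]

lemma sporadic {l : ℕ} (hl : 0 < l) : Sporadic (30 * l) ![1, 6 * l, 12 * l] ![10 * l, 1, 10 * l] := by
  have hS : ({(((![1, 6 * l, 12 * l] : Fin 3 → ℕ) 0 : ℕ) : ℤ), (((![1, 6 * l, 12 * l] : Fin 3 → ℕ) 1 : ℕ) : ℤ),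
      (((![1, 6 * l, 12 * l] : Fin 3 → ℕ) 2 : ℕ) : ℤ)} : Multiset ℤ) = {1, 6 * (l : ℤ), 12 * (l : ℤ)} := by
    simp
  have hT : ({(((![10 * l, 1, 10 * l] : Fin 3 → ℕ) 0 : ℕ) : ℤ), (((![10 * l, 1, 10 * l] : Fin 3 → ℕ) 1 : ℕ) : ℤ),
      (((![10 * l, 1, 10 * l] : Fin 3 → ℕ) 2 : ℕ) : ℤ)} : Multiset ℤ) = {10 * (l : ℤ), 1, 10 * (l : ℤ)} := by
    simp
  unfold Sporadic
  rw [hS, hT]
  refine ⟨?_, ?_, ?_⟩
  · intro h
    have e := congrArg Multiset.sum h
    rw [sum_three, sum_three] at e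
    omega
  · rintro ⟨p, q, r, hp, hq, hr, (⟨h1, h2, h3⟩ | ⟨h1, h2, h3⟩ | ⟨h1, h2, h3⟩ | ⟨h1, h2, h3⟩)⟩
    · have e := congrArg Multiset.sum h2
      rw [sum_three, sum_three] at e
      push_cast at h1
      omega
    · have e := congrArg Multiset.sum h2
      rw [sum_three, sum_three] at e
      push_cast at h1
      omega
    · have e := congrArg Multiset.sum h2
      rw [sum_three, sum_three] at e
      have e2 : r ∈ ({1, 6 * (l : ℤ), 12 * (l : ℤ)} : Multiset ℤ) := by rw [h2, mem_three]; simp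
      rw [mem_three] at e2
      push_cast at h1
      omega
    · have e := congrArg Multiset.sum h2
      rw [sum_three, sum_three] at e
      have e2 : p ∈ ({1, 6 * (l : ℤ), 12 * (l : ℤ)} : Multiset ℤ) := by rw [h2, mem_three]; simp
      rw [mem_three] at e2
      push_cast at h1
      omega
  · rintro ⟨p, q, r, hp, hq, hr, (⟨h1, h2, h3⟩ | ⟨h1, h2, h3⟩ | ⟨h1, h2, h3⟩ | ⟨h1, h2, h3⟩)⟩
    · have e := congrArg Multiset.sum h2
      rw [sum_three, sum_three] at e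
      push_cast at h1
      omega
    · have e := congrArg Multiset.sum h2
      rw [sum_three, sum_three] at e
      have e2 : q + p ∈ ({10 * (l : ℤ), 1, 10 * (l : ℤ)} : Multiset ℤ) := by rw [h2, mem_three]; simp
      rw [mem_three] at e2
      push_cast at h1
      omega
    · have e := congrArg Multiset.sum h2
      rw [sum_three, sum_three] at e
      have e2 : r ∈ ({10 * (l : ℤ), 1, 10 * (l : ℤ)} : Multiset ℤ) := by rw [h2, mem_three]; simp
      rw [mem_three] at e2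
      push_cast at h1
      omega
    · have e := congrArg Multiset.sum h2
      rw [sum_three, sum_three] at e
      have e2 : p ∈ ({10 * (l : ℤ), 1, 10 * (l : ℤ)} : Multiset ℤ) := by rw [h2, mem_three]; simp
      rw [mem_three] at e2
      push_cast at h1
      omega

/-- **Q1 has a negative answer.** For every odd `l` that is not a multiple of `7` there is a connected sporadic 3-astral
4-configuration with the symbol `m#(1, 10 l; 6 l, 1; 12 l, 10 l)`, `m = 30 l`. So connected sporadic 3-astral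
4-configurations exist for infinitely many `m`. -/
theorem result :
    (∀ l : ℕ, Odd l → ¬ 7 ∣ l → SporadicConfiguration (30 * l) ![1, 6 * l, 12 * l] ![10 * l, 1, 10 * l]) ∧
    {m : ℕ | ∃ s t : Fin 3 → ℕ, SporadicConfiguration m s t}.Infinite := by
  have h : ∀ l : ℕ, Odd l → ¬ 7 ∣ l → SporadicConfiguration (30 * l) ![1, 6 * l, 12 * l] ![10 * l, 1, 10 * l] := by
    intro l hodd h7
    have hl : 0 < l := hodd.pos
    exact ⟨sporadic hl, _, _, astral (good hl hodd h7), connected hl hodd h7⟩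
  refine ⟨h, ?_⟩
  apply Set.infinite_of_injective_forall_mem (f := fun n : ℕ => 30 * (14 * n + 1))
  · intro a b hab
    simp only at hab
    omega
  · intro n
    exact ⟨_, _, h (14 * n + 1) ⟨7 * n, by ring⟩ (by omega)⟩

end Pool.Agent.Results.MP_abecca_co.InfinitelyManySporadic
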